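import Mathlib.Data.Finset.Card
import Mathlib.Data.Fintype.Basic
import Mathlib.Order.ConditionallyCompleteLattice.Basic
import Mathlib.Order.Lattice.Nat
import Mathlib.Algebra.BigOperators.Group.Finset.Basic
import Mathlib.Algebra.Order.BigOperators.Group.Finset
import Mathlib.Tactic.Linarith
import Mathlib.Tactic.Ring

/-!
Transversal number of a finite family of finite sets, basic facts.
-/

namespace Pool.Agent.Work.MP_d266e7_co

open Finset

variable {V : Type} [DecidableEq V]

/-- `T` meets every member of `S`. -/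
def Hits (T : Finset V) (S : Finset (Finset V)) : Prop := ∀ e ∈ S, ∃ v ∈ e, v ∈ T

/-- transversal number -/
noncomputable def tau (S : Finset (Finset V)) : ℕ := sInf {k | ∃ T : Finset V, Hits T S ∧ T.card = k}

/-- all members are nonempty -/
def NE (S : Finset (Finset V)) : Prop := ∀ e ∈ S, ∃ v, v ∈ e

/-- covered vertices -/
def cov (S : Finset (Finset V)) : Finset V := S.biUnion id

/-- two members share a vertex -/
def Adj (e f : Finset V) : Prop := ∃ v, v ∈ e ∧ v ∈ f

def Crit (S : Finset (Finset V)) : Prop := ∀ e ∈ S, tau (S.erase e) < tau S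

def Conn (S : Finset (Finset V)) : Prop :=
  ∀ W ⊆ S, W.Nonempty → W ≠ S → ∃ u ∈ W, ∃ z ∈ S, z ∉ W ∧ Adj u z

/-- no member of `A` meets a member of `B` -/
def Sep (A B : Finset (Finset V)) : Prop := ∀ e ∈ A, ∀ f ∈ B, ¬ Adj e f

omit [DecidableEq V] in
theorem Adj.symm {e f : Finset V} (h : Adj e f) : Adj f e := by
  obtain ⟨v, h1, h2⟩ := h; exact ⟨v, h2, h1⟩

omit [DecidableEq V] in
theorem Sep.symm {A B : Finset (Finset V)} (h : Sep A B) : Sep B A :=
  fun e he f hf ha => h f hf e he ha.symm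

omit [DecidableEq V] in
theorem Sep.mono {A B A' B' : Finset (Finset V)} (h : Sep A B) (hA : A' ⊆ A) (hB : B' ⊆ B) :
    Sep A' B' := fun e he f hf => h e (hA he) f (hB hf)

omit [DecidableEq V] in
theorem NE.mono {A B : Finset (Finset V)} (h : NE B) (hA : A ⊆ B) : NE A :=
  fun e he => h e (hA he)

theorem mem_cov {S : Finset (Finset V)} {v : V} : v ∈ cov S ↔ ∃ e ∈ S, v ∈ e := by
  simp [cov]

theorem cov_mono {A B : Finset (Finset V)} (h : A ⊆ B) : cov A ⊆ cov B := by
  intro v hv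
  obtain ⟨e, he, hve⟩ := mem_cov.1 hv
  exact mem_cov.2 ⟨e, h he, hve⟩

omit [DecidableEq V] in
theorem tau_le {S : Finset (Finset V)} {T : Finset V} (h : Hits T S) : tau S ≤ T.card :=
  Nat.sInf_le ⟨T, h, rfl⟩

theorem exists_opt {S : Finset (Finset V)} (h : NE S) : ∃ T, Hits T S ∧ T.card = tau S := by
  have : {k | ∃ T : Finset V, Hits T S ∧ T.card = k}.Nonempty := by
    refine ⟨_, cov S, ?_, rfl⟩
    intro e he
    obtain ⟨v, hv⟩ := h e he
    exact ⟨v, hv, mem_cov.2 ⟨e, he, hv⟩⟩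
  exact Nat.sInf_mem this

theorem tau_mono {A B : Finset (Finset V)} (hB : NE B) (h : A ⊆ B) : tau A ≤ tau B := by
  obtain ⟨T, hT, hc⟩ := exists_opt hB
  rw [← hc]
  exact tau_le fun e he => hT e (h he)

theorem tau_union_le {A B : Finset (Finset V)} (hA : NE A) (hB : NE B) :
    tau (A ∪ B) ≤ tau A + tau B := by
  obtain ⟨T, hT, hc⟩ := exists_opt hA
  obtain ⟨U, hU, hd⟩ := exists_opt hB
  rw [← hc, ← hd]
  refine le_trans (tau_le (T := T ∪ U) ?_) (card_union_le _ _)
  intro e he
  rcases mem_union.1 he with he | he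
  · obtain ⟨v, h1, h2⟩ := hT e he; exact ⟨v, h1, mem_union_left _ h2⟩
  · obtain ⟨v, h1, h2⟩ := hU e he; exact ⟨v, h1, mem_union_right _ h2⟩

/-- if everything outside `A` contains `v`, one more vertex suffices -/
theorem tau_le_succ {S A : Finset (Finset V)} (hA : NE A) (v : V)
    (h : ∀ e ∈ S, e ∈ A ∨ v ∈ e) : tau S ≤ tau A + 1 := by
  obtain ⟨T, hT, hc⟩ := exists_opt hA
  rw [← hc]
  refine le_trans (tau_le (T := insert v T) ?_) (card_insert_le _ _)
  intro e he
  rcases h e he with he | he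
  · obtain ⟨w, h1, h2⟩ := hT e he; exact ⟨w, h1, mem_insert_of_mem h2⟩
  · exact ⟨v, he, mem_insert_self _ _⟩

theorem tau_le_two {S A : Finset (Finset V)} (hA : NE A) (v w : V)
    (h : ∀ e ∈ S, e ∈ A ∨ v ∈ e ∨ w ∈ e) : tau S ≤ tau A + 2 := by
  obtain ⟨T, hT, hc⟩ := exists_opt hA
  rw [← hc]
  refine le_trans (tau_le (T := insert w (insert v T)) ?_) ?_
  · intro e he
    rcases h e he with he | he | he
    · obtain ⟨u, h1, h2⟩ := hT e he
      exact ⟨u, h1, mem_insert_of_mem (mem_insert_of_mem h2)⟩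
    · exact ⟨v, he, mem_insert_of_mem (mem_insert_self _ _)⟩
    · exact ⟨w, he, mem_insert_self _ _⟩
  · have h1 := card_insert_le w (insert v T)
    have h2 := card_insert_le v T
    omega

omit [DecidableEq V] in
theorem tau_empty : tau (∅ : Finset (Finset V)) = 0 := by
  have : tau (∅ : Finset (Finset V)) ≤ (∅ : Finset V).card := tau_le (fun e he => by simp at he)
  simpa using this

theorem tau_pos {S : Finset (Finset V)} (hS : NE S) (h : S.Nonempty) : 1 ≤ tau S := by
  obtain ⟨T, hT, hc⟩ := exists_opt hS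
  obtain ⟨e, he⟩ := h
  obtain ⟨v, _, hv⟩ := hT e he
  rw [← hc]
  exact card_pos.2 ⟨v, hv⟩

omit [DecidableEq V] in
theorem tau_le_one {S : Finset (Finset V)} (v : V) (h : ∀ e ∈ S, v ∈ e) : tau S ≤ 1 := by
  have : tau S ≤ ({v} : Finset V).card := tau_le fun e he => ⟨v, h e he, mem_singleton_self _⟩
  simpa using this

theorem Sep.disjoint_cov {A B : Finset (Finset V)} (h : Sep A B) : Disjoint (cov A) (cov B) := by
  rw [disjoint_left]
  intro v h1 h2
  obtain ⟨e, he, hv⟩ := mem_cov.1 h1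
  obtain ⟨f, hf, hw⟩ := mem_cov.1 h2
  exact h e he f hf ⟨v, hv, hw⟩

theorem tau_union_sep {A B : Finset (Finset V)} (hA : NE A) (hB : NE B) (h : Sep A B) :
    tau (A ∪ B) = tau A + tau B := by
  apply le_antisymm (tau_union_le hA hB)
  have hAB : NE (A ∪ B) := by
    intro e he
    rcases mem_union.1 he with he | he
    · exact hA e he
    · exact hB e he
  obtain ⟨T, hT, hc⟩ := exists_opt hAB
  have h1 : tau A ≤ (T ∩ cov A).card := tau_le fun e he => by
    obtain ⟨v, h1, h2⟩ := hT e (mem_union_left _ he)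
    exact ⟨v, h1, mem_inter.2 ⟨h2, mem_cov.2 ⟨e, he, h1⟩⟩⟩
  have h2 : tau B ≤ (T ∩ cov B).card := tau_le fun e he => by
    obtain ⟨v, h1, h2⟩ := hT e (mem_union_right _ he)
    exact ⟨v, h1, mem_inter.2 ⟨h2, mem_cov.2 ⟨e, he, h1⟩⟩⟩
  have hd : Disjoint (T ∩ cov A) (T ∩ cov B) :=
    h.disjoint_cov.mono inter_subset_right inter_subset_right
  have h3 := card_union_of_disjoint hd
  have h4 : (T ∩ cov A ∪ T ∩ cov B).card ≤ T.card :=
    card_le_card (union_subset inter_subset_left inter_subset_left)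
  omega

omit [DecidableEq V] in
theorem Sep.disjoint {A B : Finset (Finset V)} (h : Sep A B) (hA : NE A) : Disjoint A B := by
  rw [disjoint_left]
  intro e h1 h2
  obtain ⟨v, hv⟩ := hA e h1
  exact h e h1 e h2 ⟨v, hv, hv⟩

/-- a separated piece of a critical family is critical -/
theorem crit_of_sep {S P : Finset (Finset V)} (hS : NE S) (hc : Crit S) (hP : P ⊆ S)
    (hs : Sep P (S \ P)) : Crit P := by
  intro y hy
  have h1 : tau S = tau P + tau (S \ P) := by
    rw [← tau_union_sep (hS.mono hP) (hS.mono sdiff_subset) hs, union_sdiff_of_subset hP]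
  have h2 : tau (S.erase y) = tau (P.erase y) + tau (S \ P) := by
    rw [← tau_union_sep (hS.mono ((erase_subset _ _).trans hP)) (hS.mono sdiff_subset)
      (hs.mono (erase_subset _ _) Subset.rfl)]
    congr 1
    ext x
    simp only [mem_erase, mem_union, mem_sdiff]
    constructor
    · rintro ⟨h1, h2⟩
      by_cases hx : x ∈ P
      · exact Or.inl ⟨h1, hx⟩
      · exact Or.inr ⟨h2, hx⟩
    · rintro (⟨h1, h2⟩ | ⟨h1, h2⟩)
      · exact ⟨h1, hP h2⟩
      · exact ⟨fun h => h2 (h ▸ hy), h1⟩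
  have := hc y (hP hy)
  omega

end Pool.Agent.Work.MP_d266e7_co
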