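import Pool.Agent.Work.MP_d266e7_co.ThreeFour
import Mathlib.Data.Fintype.Card

/-!
Greedy removal of vertices of large degree on top of `three_four`.
-/

namespace Pool.Agent.Work.MP_d266e7_co

open Finset

variable {V : Type} [DecidableEq V]

theorem greedy (a b c d : ℕ) (hd : c ≤ a + (d + 2) * b)
    (base : ∀ K : Finset (Finset V), U5 K → 5 * K.card ≤ (d + 1) * (cov K).card →
      c * tau K ≤ a * (cov K).card + b * K.card) (n : ℕ) :
    ∀ K : Finset (Finset V), K.card < n → U5 K → c * tau K ≤ a * (cov K).card + b * K.card := by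
  induction n with
  | zero => intro K h; omega
  | succ n ih =>
    intro K hn hK
    by_cases h : ∃ v, d + 2 ≤ (star K v).card
    · obtain ⟨v, hv⟩ := h
      have h1 := tau_star hK.ne v
      have h2 := card_star (S := K) v
      have h3 := cov_star (card_pos.1 (show 0 < (star K v).card by omega))
      have h4 := ih (K \ star K v) (by omega) (hK.mono sdiff_subset)
      have h5 := Nat.mul_le_mul_left c h1
      have h6 := Nat.mul_le_mul_left a h3
      have h7 := Nat.mul_le_mul_left b (show (K \ star K v).card + (d + 2) ≤ K.card by omega)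
      nlinarith
    · push Not at h
      have h3 := deg_count hK d ∅ (fun v _ => by have := h v; omega)
        (fun v _ hB => by simp at hB)
      exact base K hK (by omega)

theorem six_seven {K : Finset (Finset V)} (hK : U5 K) :
    34 * tau K ≤ 6 * (cov K).card + 7 * K.card :=
  greedy 6 7 34 2 (by norm_num) (fun K hK h => by have := three_four hK; omega) _ K
    (Nat.lt_succ_self _) hK

theorem eleven_eight {K : Finset (Finset V)} (hK : U5 K) :
    51 * tau K ≤ 11 * (cov K).card + 8 * K.card :=
  greedy 11 8 51 3 (by norm_num) (fun K hK h => by have := six_seven hK; omega) _ K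
    (Nat.lt_succ_self _) hK

theorem seven_m {K : Finset (Finset V)} (hK : U5 K) :
    748 * tau K ≤ 160 * (cov K).card + 119 * K.card :=
  greedy 160 119 748 3 (by norm_num) (fun K hK h => by have := six_seven hK; omega) _ K
    (Nat.lt_succ_self _) hK

theorem export_bound {n : ℕ} {E : Finset (Finset (Fin n))} (hE : U5 E) (a b c : ℕ)
    (h : c * tau E ≤ a * (cov E).card + b * E.card) :
    ∃ T : Finset (Fin n), (∀ e ∈ E, (e ∩ T).Nonempty) ∧ c * T.card ≤ a * n + b * E.card := by
  obtain ⟨T, hT, hc⟩ := exists_opt hE.ne
  refine ⟨T, fun e he => ?_, ?_⟩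
  · obtain ⟨v, h1, h2⟩ := hT e he
    exact ⟨v, mem_inter.2 ⟨h1, h2⟩⟩
  · have h1 : (cov E).card ≤ n := by simpa using card_le_univ (cov E)
    have h2 := Nat.mul_le_mul_left a h1
    rw [hc]
    omega

end Pool.Agent.Work.MP_d266e7_co
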