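import Pool.Agent.Work.MP_d266e7_co.Basic

/-!
A connected critical family `S` has `2 * tau S ≤ |S| + 1` (hypergraph form of Gallai's lemma).
-/

namespace Pool.Agent.Work.MP_d266e7_co

open Finset

variable {V : Type} [DecidableEq V]

/-- a labelling whose classes have a common vertex -/
def Valid (S : Finset (Finset V)) (g : Finset V → Option V) : Prop :=
  ∀ e ∈ S, ∃ v, ∀ f ∈ S, g f = g e → v ∈ f

def cnt (S : Finset (Finset V)) (g : Finset V → Option V) : ℕ := (S.image g).card

def Sing (S : Finset (Finset V)) (g : Finset V → Option V) (x : Finset V) : Prop :=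
  ∀ y ∈ S, g y = g x → y = x

instance (S : Finset (Finset V)) (g : Finset V → Option V) : DecidablePred (Sing S g) :=
  fun x => by unfold Sing; infer_instance

def ns (S : Finset (Finset V)) (g : Finset V → Option V) : ℕ := (S.filter (Sing S g)).card

def dd (S : Finset (Finset V)) (P Q : Finset V → Option V) : ℕ :=
  ((S ×ˢ S).filter (fun p => P p.1 = P p.2 ∧ Q p.1 ≠ Q p.2)).card

theorem exists_min' {α : Type} (p : α → Prop) (f : α → ℕ) (h : ∃ a, p a) :
    ∃ a, p a ∧ ∀ b, p b → f a ≤ f b := by
  classical
  have h' : ∃ n, ∃ a, p a ∧ f a = n := by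
    obtain ⟨a, ha⟩ := h; exact ⟨_, a, ha, rfl⟩
  obtain ⟨a, ha, hf⟩ := Nat.find_spec h'
  refine ⟨a, ha, fun b hb => ?_⟩
  rw [hf]
  exact Nat.find_min' h' ⟨b, hb, rfl⟩

theorem tau_le_cnt {S : Finset (Finset V)} {g : Finset V → Option V} (h : Valid S g) :
    tau S ≤ cnt S g := by
  classical
  have : ∀ l ∈ S.image g, ∃ v, ∀ f ∈ S, g f = l → v ∈ f := by
    intro l hl
    obtain ⟨e, he, rfl⟩ := mem_image.1 hl
    exact h e he
  choose c hc using this
  refine le_trans (tau_le (T := (S.image g).attach.image (fun l => c l.1 l.2)) ?_) ?_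
  · intro e he
    have hl : g e ∈ S.image g := mem_image_of_mem _ he
    exact ⟨c (g e) hl, hc _ hl e he rfl, mem_image.2 ⟨⟨g e, hl⟩, mem_attach _ _, rfl⟩⟩
  · refine le_trans card_image_le ?_
    simp [cnt]

theorem exists_valid {S : Finset (Finset V)} (h : NE S) :
    ∃ g : Finset V → Option V, Valid S g ∧ cnt S g ≤ tau S ∧ ∀ e ∈ S, g e ≠ none := by
  classical
  obtain ⟨T, hT, hc⟩ := exists_opt h
  have : ∀ e, ∃ l : Option V, e ∈ S → ∃ v ∈ e, v ∈ T ∧ l = some v := by
    intro e
    by_cases he : e ∈ S
    · obtain ⟨v, h1, h2⟩ := hT e he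
      exact ⟨some v, fun _ => ⟨v, h1, h2, rfl⟩⟩
    · exact ⟨none, fun h => absurd h he⟩
  choose g hg using this
  refine ⟨g, ?_, ?_, ?_⟩
  · intro e he
    obtain ⟨v, h1, h2, h3⟩ := hg e he
    refine ⟨v, fun f hf hfe => ?_⟩
    obtain ⟨w, h4, h5, h6⟩ := hg f hf
    rw [h3, h6] at hfe
    cases hfe
    exact h4
  · rw [← hc]
    have : S.image g ⊆ T.image some := by
      intro l hl
      obtain ⟨e, he, rfl⟩ := mem_image.1 hl
      obtain ⟨v, h1, h2, h3⟩ := hg e he
      exact mem_image.2 ⟨v, h2, h3.symm⟩
    exact le_trans (card_le_card this) card_image_le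
  · intro e he
    obtain ⟨v, h1, h2, h3⟩ := hg e he
    simp [h3]

theorem exists_valid_sing {S : Finset (Finset V)} (h : NE S) {z : Finset V} (hz : z ∈ S)
    (hc : tau (S.erase z) < tau S) :
    ∃ g : Finset V → Option V, Valid S g ∧ cnt S g ≤ tau S ∧ Sing S g z := by
  classical
  obtain ⟨g, h1, h2, h3⟩ := exists_valid (h.mono (erase_subset z S))
  have hs : Sing S (Function.update g z none) z := by
    intro y hy hyz
    by_contra hne
    rw [Function.update_of_ne hne, Function.update_self] at hyz
    exact h3 y (mem_erase.2 ⟨hne, hy⟩) hyz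
  refine ⟨Function.update g z none, ?_, ?_, hs⟩
  · intro e he
    by_cases hez : e = z
    · subst hez
      obtain ⟨v, hv⟩ := h e he
      exact ⟨v, fun f hf hfe => by rw [hs f hf hfe]; exact hv⟩
    · obtain ⟨v, hv⟩ := h1 e (mem_erase.2 ⟨hez, he⟩)
      refine ⟨v, fun f hf hfe => ?_⟩
      have hfz : f ≠ z := by
        rintro rfl
        exact hez (hs e he hfe.symm)
      rw [Function.update_of_ne hfz, Function.update_of_ne hez] at hfe
      exact hv f (mem_erase.2 ⟨hfz, hf⟩) hfe
  · have : S.image (Function.update g z none) ⊆ insert none ((S.erase z).image g) := by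
      intro l hl
      obtain ⟨e, he, rfl⟩ := mem_image.1 hl
      by_cases hez : e = z
      · subst hez; simp
      · rw [Function.update_of_ne hez]
        exact mem_insert_of_mem (mem_image_of_mem _ (mem_erase.2 ⟨hez, he⟩))
    have h4 := le_trans (card_le_card this) (card_insert_le _ _)
    unfold cnt at h2 ⊢
    omega

theorem two_cnt_le (S : Finset (Finset V)) (g : Finset V → Option V) :
    2 * cnt S g ≤ S.card + ns S g := by
  have h1 : S.card = ∑ l ∈ S.image g, (S.filter (fun e => g e = l)).card :=
    card_eq_sum_card_image g S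
  have h2 : ns S g = ∑ l ∈ S.image g, ((S.filter (Sing S g)).filter (fun e => g e = l)).card :=
    card_eq_sum_card_fiberwise (fun e he => by
      simp only [coe_filter, Set.mem_ofPred_eq] at he
      exact mem_coe.2 (mem_image_of_mem _ he.1))
  rw [h1, h2, ← sum_add_distrib, cnt, mul_comm, ← sum_const_nat (m := 2) (f := fun _ => 2)
    (fun _ _ => rfl)]
  apply sum_le_sum
  intro l hl
  obtain ⟨e, he, rfl⟩ := mem_image.1 hl
  by_cases hs : Sing S g e
  · have a1 : 1 ≤ (S.filter (fun f => g f = g e)).card :=
      card_pos.2 ⟨e, mem_filter.2 ⟨he, rfl⟩⟩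
    have a2 : 1 ≤ ((S.filter (Sing S g)).filter (fun f => g f = g e)).card :=
      card_pos.2 ⟨e, mem_filter.2 ⟨mem_filter.2 ⟨he, hs⟩, rfl⟩⟩
    omega
  · unfold Sing at hs
    push Not at hs
    obtain ⟨y, hy, h1, h2⟩ := hs
    have : 1 < (S.filter (fun f => g f = g e)).card :=
      one_lt_card.2 ⟨y, mem_filter.2 ⟨hy, h1⟩, e, mem_filter.2 ⟨he, rfl⟩, h2⟩
    omega

section move
variable {S : Finset (Finset V)} {g : Finset V → Option V} {u w : Finset V}

theorem move_valid (hg : Valid S g) (_hu : u ∈ S) (hs : Sing S g u) (ha : Adj u w) :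
    Valid S (Function.update g w (g u)) := by
  obtain ⟨v, hvu, hvw⟩ := ha
  intro e he
  by_cases h : Function.update g w (g u) e = g u
  · refine ⟨v, fun f hf hfe => ?_⟩
    by_cases hfw : f = w
    · rw [hfw]; exact hvw
    · rw [Function.update_of_ne hfw, h] at hfe
      rw [hs f hf hfe]; exact hvu
  · have hew : e ≠ w := by
      rintro rfl
      exact h (Function.update_self ..)
    obtain ⟨x, hx⟩ := hg e he
    refine ⟨x, fun f hf hfe => ?_⟩
    have hfw : f ≠ w := by
      rintro rfl
      rw [Function.update_self] at hfe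
      exact h hfe.symm
    rw [Function.update_of_ne hfw, Function.update_of_ne hew] at hfe
    exact hx f hf hfe

theorem move_image (hu : u ∈ S) : S.image (Function.update g w (g u)) ⊆ S.image g := by
  intro l hl
  obtain ⟨e, he, rfl⟩ := mem_image.1 hl
  by_cases hew : e = w
  · subst hew; rw [Function.update_self]; exact mem_image_of_mem _ hu
  · rw [Function.update_of_ne hew]; exact mem_image_of_mem _ he

theorem move_cnt (hu : u ∈ S) : cnt S (Function.update g w (g u)) ≤ cnt S g :=
  card_le_card (move_image hu)

theorem move_cnt_lt (hu : u ∈ S) (hw : w ∈ S) (hne : u ≠ w) (hs : Sing S g w) :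
    cnt S (Function.update g w (g u)) < cnt S g := by
  apply card_lt_card
  refine ⟨move_image hu, fun h => ?_⟩
  obtain ⟨e, he, h1⟩ := mem_image.1 (h (mem_image_of_mem g hw))
  by_cases hew : e = w
  · subst hew
    rw [Function.update_self] at h1
    exact hne (hs u hu h1)
  · rw [Function.update_of_ne hew] at h1
    exact hew (hs e he h1)

theorem move_sing (hu : u ∈ S) {y : Finset V} (hyu : y ≠ u) (hyw : y ≠ w) (hs : Sing S g y) :
    Sing S (Function.update g w (g u)) y := by
  intro x hx h
  rw [Function.update_of_ne hyw] at h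
  by_cases hxw : x = w
  · subst hxw
    rw [Function.update_self] at h
    exact absurd (hs u hu h) hyu.symm
  · rw [Function.update_of_ne hxw] at h
    exact hs x hx h

theorem move_sing_inv (hu : u ∈ S) (hw : w ∈ S) (hne : u ≠ w) {y : Finset V}
    (hs : Sing S (Function.update g w (g u)) y) :
    y ≠ u ∧ (Sing S g y ∨ (y ≠ w ∧ g y = g w ∧ ∀ x ∈ S, g x = g w → x = w ∨ x = y)) := by
  have h1 : y ≠ u := by
    rintro rfl
    exact hne (hs w hw (by rw [Function.update_self, Function.update_of_ne hne])).symm
  have h2 : y ≠ w := by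
    rintro rfl
    exact hne (hs u hu (by rw [Function.update_self, Function.update_of_ne hne]))
  refine ⟨h1, ?_⟩
  by_cases h : g y = g w
  · refine Or.inr ⟨h2, h, fun x hx hxw => ?_⟩
    by_cases hx2 : x = w
    · exact Or.inl hx2
    · exact Or.inr (hs x hx (by
        rw [Function.update_of_ne hx2, Function.update_of_ne h2, hxw, h]))
  · refine Or.inl fun x hx hxy => ?_
    have hx2 : x ≠ w := by
      rintro rfl
      exact h hxy.symm
    exact hs x hx (by rw [Function.update_of_ne hx2, Function.update_of_ne h2, hxy])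

end move

/-- optimal labelling with the least number of singleton classes -/
def Thin (S : Finset (Finset V)) (P : Finset V → Option V) : Prop :=
  Valid S P ∧ cnt S P ≤ tau S ∧
    ∀ g : Finset V → Option V, Valid S g → cnt S g ≤ tau S → ns S P ≤ ns S g

def PairOK (S : Finset (Finset V)) (P Q : Finset V → Option V) (z : Finset V) : Prop :=
  ∀ a ∈ S, ∀ b ∈ S, a ≠ b → P a = P b → (∀ y ∈ S, P y = P a → y = a ∨ y = b) →
    a ≠ z → b ≠ z → ¬ Sing S Q a

omit [DecidableEq V] in
theorem valid_adj {S : Finset (Finset V)} {g : Finset V → Option V} (hg : Valid S g)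
    {a b : Finset V} (ha : a ∈ S) (hb : b ∈ S) (h : g a = g b) : Adj a b := by
  obtain ⟨v, hv⟩ := hg a ha
  exact ⟨v, hv a ha rfl, hv b hb h.symm⟩

theorem walk_aux {S : Finset (Finset V)} {Q : Finset V → Option V} {z y : Finset V}
    (hQ : Valid S Q) (hz : Sing S Q z) (hy : y ∈ S) (n : ℕ) :
    ∀ (P : Finset V → Option V) (u : Finset V), dd S P Q < n → Thin S P → u ∈ S → Sing S P u →
      Sing S P y → u ≠ y → ¬ Sing S Q u → PairOK S P Q z →
      ∃ P', Thin S P' ∧ Sing S P' z ∧ Sing S P' y ∧ z ≠ y := by
  induction n with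
  | zero => intro P u h; omega
  | succ n ih =>
    intro P u hd hP hu hPu hPy huy hQu hOK
    by_cases hA : ∃ w ∈ S, Q w = Q u ∧ w ≠ u ∧ ∃ w' ∈ S, P w' = P w ∧ Q w' ≠ Q u
    · obtain ⟨w, hw, hQw, hwu, w', hw', hPw', hQw'⟩ := hA
      have hw'w : w' ≠ w := by
        rintro rfl
        exact hQw' hQw
      have hwy : w ≠ y := by
        rintro rfl
        exact hw'w (hPy w' hw' hPw')
      have hw'y : w' ≠ y := by
        rintro rfl
        exact hw'w (hPy w hw hPw'.symm).symm
      have hw'u : w' ≠ u := by
        rintro rfl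
        exact hQw' rfl
      have hadj : Adj u w := valid_adj hQ hu hw hQw.symm
      set P1 := Function.update P w (P u) with hP1
      have hV1 : Valid S P1 := move_valid hP.1 hu hPu hadj
      have hc1 : cnt S P1 ≤ tau S := (move_cnt hu).trans hP.2.1
      have hmin := hP.2.2 P1 hV1 hc1
      have humem : u ∈ S.filter (Sing S P) := mem_filter.2 ⟨hu, hPu⟩
      have hpair : ∀ x ∈ S, P x = P w → x = w ∨ x = w' := by
        by_contra hcon
        have : S.filter (Sing S P1) ⊆ (S.filter (Sing S P)).erase u := by
          intro x hx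
          obtain ⟨hxS, hxs⟩ := mem_filter.1 hx
          obtain ⟨h1, h2 | ⟨h2, h3, h4⟩⟩ := move_sing_inv hu hw hwu.symm hxs
          · exact mem_erase.2 ⟨h1, mem_filter.2 ⟨hxS, h2⟩⟩
          · exfalso
            apply hcon
            rcases h4 w' hw' hPw' with h | h
            · exact absurd h hw'w
            · rw [h]; exact h4
        have h1 := card_le_card this
        rw [card_erase_of_mem humem] at h1
        have h2 := card_pos.2 ⟨u, humem⟩
        unfold ns at hmin
        omega
      have hns : ns S P1 ≤ ns S P := by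
        have : S.filter (Sing S P1) ⊆ insert w' ((S.filter (Sing S P)).erase u) := by
          intro x hx
          obtain ⟨hxS, hxs⟩ := mem_filter.1 hx
          obtain ⟨h1, h2 | ⟨h2, h3, h4⟩⟩ := move_sing_inv hu hw hwu.symm hxs
          · exact mem_insert_of_mem (mem_erase.2 ⟨h1, mem_filter.2 ⟨hxS, h2⟩⟩)
          · rcases hpair x hxS h3 with h | h
            · exact absurd h h2
            · rw [h]; exact mem_insert_self _ _
        have h1 := (card_le_card this).trans (card_insert_le _ _)
        rw [card_erase_of_mem humem] at h1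
        have h2 := card_pos.2 ⟨u, humem⟩
        unfold ns
        omega
      have hL1 : Thin S P1 := ⟨hV1, hc1, fun g hg hc => hns.trans (hP.2.2 g hg hc)⟩
      have hPwu : P w ≠ P u := fun h => hwu (hPu w hw h)
      have hs1 : Sing S P1 w' := by
        intro x hx h
        rw [hP1, Function.update_of_ne hw'w] at h
        by_cases hxw : x = w
        · subst hxw
          rw [Function.update_self, hPw'] at h
          exact absurd h.symm hPwu
        · rw [Function.update_of_ne hxw, hPw'] at h
          rcases hpair x hx h with h | h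
          · exact absurd h hxw
          · exact h
      have hy1 : Sing S P1 y := move_sing hu huy.symm hwy.symm hPy
      by_cases hw'z : w' = z
      · subst hw'z
        exact ⟨P1, hL1, hs1, hy1, hw'y⟩
      have hwz : w ≠ z := by
        rintro rfl
        exact hwu (hz u hu hQw.symm).symm
      have hQ1 : ¬ Sing S Q w' := by
        refine hOK w' hw' w hw hw'w hPw' (fun x hx h => ?_) hw'z hwz
        exact (hpair x hx (h.trans hPw')).symm
      refine ih P1 w' ?_ hL1 hw' hs1 hy1 hw'y hQ1 ?_
      · have : dd S P1 Q < dd S P Q := by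
          apply card_lt_card
          constructor
          · intro p hp
            obtain ⟨hp1, hp2, hp3⟩ := mem_filter.1 hp
            obtain ⟨ha, hb⟩ := mem_product.1 hp1
            refine mem_filter.2 ⟨hp1, ?_, hp3⟩
            by_cases h1 : p.1 = w <;> by_cases h2 : p.2 = w
            · rw [h1, h2]
            · rw [hP1, h1, Function.update_self, Function.update_of_ne h2] at hp2
              rw [h1, hPu _ hb hp2.symm] at hp3
              exact absurd hQw hp3
            · rw [hP1, h2, Function.update_self, Function.update_of_ne h1] at hp2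
              rw [h2, hPu _ ha hp2] at hp3
              exact absurd hQw.symm hp3
            · rw [hP1, Function.update_of_ne h1, Function.update_of_ne h2] at hp2
              exact hp2
          · intro h
            have : (w', w) ∈ (S ×ˢ S).filter (fun p => P p.1 = P p.2 ∧ Q p.1 ≠ Q p.2) :=
              mem_filter.2 ⟨mem_product.2 ⟨hw', hw⟩, hPw', by rw [hQw]; exact hQw'⟩
            have h2 := (mem_filter.1 (h this)).2.1
            exact hw'w (hs1 w hw h2.symm).symm
        omega
      · intro a ha b hb hab hPab hfib haz hbz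
        have hwlab : P1 w = P u := Function.update_self ..
        have hulab : P1 u = P u := Function.update_of_ne hwu.symm ..
        by_cases hl : P1 a = P u
        · intro hsa
          have h1 := hfib w hw (hwlab.trans hl.symm)
          have h2 := hfib u hu (hulab.trans hl.symm)
          rcases h1 with h1 | h1 <;> rcases h2 with h2 | h2
          · exact hwu (h1.trans h2.symm)
          · exact hwu (hsa u hu (by rw [← h1, hQw]) ▸ h1)
          · exact hwu (hsa w hw (by rw [← h2, hQw]) ▸ h2.symm ▸ rfl)
          · exact hwu (h1.trans h2.symm)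
        · have haw : a ≠ w := by
            rintro rfl
            exact hl hwlab
          have hbw : b ≠ w := by
            rintro rfl
            exact hl (hPab.trans hwlab)
          have e1 : P1 a = P a := Function.update_of_ne haw ..
          have e2 : P1 b = P b := Function.update_of_ne hbw ..
          have hPab' : P a = P b := by rw [← e1, ← e2]; exact hPab
          have hPaw : P a ≠ P w := by
            intro h
            rcases hpair a ha h with h1 | h1
            · exact haw h1
            · rcases hpair b hb (hPab'.symm.trans h) with h2 | h2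
              · exact hbw h2
              · exact hab (h1.trans h2.symm)
          refine hOK a ha b hb hab hPab' (fun x hx h => ?_) haz hbz
          have hxw : x ≠ w := by
            rintro rfl
            exact hPaw h.symm
          exact hfib x hx (by rw [e1, ← h]; exact Function.update_of_ne hxw ..)
    · exfalso
      push Not at hA
      unfold Sing at hQu
      push Not at hQu
      obtain ⟨w0, hw0, hQ0, hw0u⟩ := hQu
      obtain ⟨v, hv⟩ := hQ u hu
      let P2 : Finset V → Option V := fun e => if Q e = Q u then P u else P e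
      have hV2 : Valid S P2 := by
        intro e he
        by_cases h : P2 e = P u
        · refine ⟨v, fun f hf hfe => ?_⟩
          by_cases hf2 : Q f = Q u
          · exact hv f hf hf2
          · rw [h] at hfe
            simp only [P2, if_neg hf2] at hfe
            exact absurd (by rw [hPu f hf hfe]) hf2
        · have he2 : Q e ≠ Q u := fun h' => h (by simp only [P2, if_pos h'])
          obtain ⟨x, hx⟩ := hP.1 e he
          refine ⟨x, fun f hf hfe => ?_⟩
          have hf2 : Q f ≠ Q u := fun h' => h (by rw [← hfe]; simp only [P2, if_pos h'])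
          simp only [P2, if_neg hf2, if_neg he2] at hfe
          exact hx f hf hfe
      have hlt : cnt S P2 < cnt S P := by
        apply card_lt_card
        constructor
        · intro l hl
          obtain ⟨e, he, rfl⟩ := mem_image.1 hl
          by_cases h : Q e = Q u
          · simp only [P2, if_pos h]; exact mem_image_of_mem _ hu
          · simp only [P2, if_neg h]; exact mem_image_of_mem _ he
        · intro h
          obtain ⟨e, he, h1⟩ := mem_image.1 (h (mem_image_of_mem P hw0))
          by_cases h2 : Q e = Q u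
          · simp only [P2, if_pos h2] at h1
            exact hw0u (hPu w0 hw0 h1.symm)
          · simp only [P2, if_neg h2] at h1
            exact h2 (hA w0 hw0 hQ0 hw0u e he h1)
      have := tau_le_cnt hV2
      have := hP.2.1
      omega

theorem walk {S : Finset (Finset V)} (hS : NE S) {P : Finset V → Option V} {u y z : Finset V}
    (hP : Thin S P) (hu : u ∈ S) (hy : y ∈ S) (hz : z ∈ S) (hPu : Sing S P u) (hPy : Sing S P y)
    (huy : u ≠ y) (ha : Adj u z) (hc : tau (S.erase z) < tau S) :
    ∃ P', Thin S P' ∧ Sing S P' z ∧ Sing S P' y ∧ z ≠ y := by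
  by_cases huz : u = z
  · subst huz; exact ⟨P, hP, hPu, hPy, huy⟩
  obtain ⟨Q, ⟨hQ, hQc, hQz⟩, hmin⟩ := exists_min'
    (fun g : Finset V → Option V => Valid S g ∧ cnt S g ≤ tau S ∧ Sing S g z)
    (fun g => dd S P g) (exists_valid_sing hS hz hc)
  refine walk_aux hQ hQz hy _ P u (Nat.lt_succ_self _) hP hu hPu hPy huy ?_ ?_
  · intro hQu
    have h1 := tau_le_cnt (move_valid hQ hu hQu ha)
    have h2 := move_cnt_lt (g := Q) hu hz huz hQz
    omega
  · intro a ha b hb hab hPab hfib haz hbz hsa
    have hadj : Adj a b := valid_adj hP.1 ha hb hPab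
    have hV := move_valid hQ ha hsa hadj
    have h1 := hmin _ ⟨hV, (move_cnt ha).trans hQc, move_sing ha haz.symm hbz.symm hQz⟩
    have : dd S P (Function.update Q b (Q a)) < dd S P Q := by
      apply card_lt_card
      constructor
      · intro p hp
        obtain ⟨hp1, hp2, hp3⟩ := mem_filter.1 hp
        obtain ⟨h3, h4⟩ := mem_product.1 hp1
        refine mem_filter.2 ⟨hp1, hp2, ?_⟩
        by_cases h1 : p.1 = b <;> by_cases h2 : p.2 = b
        · rw [h1, h2] at hp3; exact absurd rfl hp3
        · rcases hfib p.2 h4 (by rw [← hp2, h1, hPab]) with h | h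
          · rw [h1, h, Function.update_self, Function.update_of_ne hab] at hp3
            exact absurd rfl hp3
          · exact absurd h h2
        · rcases hfib p.1 h3 (by rw [hp2, h2, hPab]) with h | h
          · rw [h2, h, Function.update_self, Function.update_of_ne hab] at hp3
            exact absurd rfl hp3
          · exact absurd h h1
        · rw [Function.update_of_ne h1, Function.update_of_ne h2] at hp3
          exact hp3
      · intro h
        have : (a, b) ∈ (S ×ˢ S).filter (fun p => P p.1 = P p.2 ∧ Q p.1 ≠ Q p.2) :=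
          mem_filter.2 ⟨mem_product.2 ⟨ha, hb⟩, hPab, fun h => hab (hsa b hb h.symm).symm⟩
        have h2 := (mem_filter.1 (h this)).2.2
        simp only [Function.update_self, Function.update_of_ne hab] at h2
        exact h2 rfl
    omega

theorem gallai {S : Finset (Finset V)} (hS : NE S) (hc : Crit S) (hn : Conn S) :
    2 * tau S ≤ S.card + 1 := by
  classical
  obtain ⟨P, ⟨hV, hP⟩, hmin⟩ := exists_min'
    (fun g : Finset V → Option V => Valid S g ∧ cnt S g ≤ tau S) (fun g => ns S g)
    (by obtain ⟨g, h1, h2, _⟩ := exists_valid hS; exact ⟨g, h1, h2⟩)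
  have hL : Thin S P := ⟨hV, hP, fun g h1 h2 => hmin g ⟨h1, h2⟩⟩
  have h1 := two_cnt_le S P
  have h2 := tau_le_cnt hV
  by_contra hcon
  have h3 : 1 < (S.filter (Sing S P)).card := by unfold ns at h1; omega
  obtain ⟨u, hu, y, hy, huy⟩ := one_lt_card.1 h3
  obtain ⟨hu, hPu⟩ := mem_filter.1 hu
  obtain ⟨hy, hPy⟩ := mem_filter.1 hy
  let W := S.filter (fun u => ∃ P', Thin S P' ∧ Sing S P' u ∧ Sing S P' y ∧ u ≠ y)
  obtain ⟨a, ha, z, hz, hzW, hadj⟩ := hn W (filter_subset _ _)
    ⟨u, mem_filter.2 ⟨hu, P, hL, hPu, hPy, huy⟩⟩ (by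
      intro h
      have : y ∈ W := h ▸ hy
      obtain ⟨_, _, _, _, _, h'⟩ := mem_filter.1 this
      exact h' rfl)
  obtain ⟨haS, P', h4, h5, h6, h7⟩ := mem_filter.1 ha
  exact hzW (mem_filter.2 ⟨hz, walk hS h4 haS hy hz h5 h6 h7 hadj (hc z hz)⟩)

end Pool.Agent.Work.MP_d266e7_co
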