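import Pool.Agent.Work.MP_d266e7_co.Gallai
import Mathlib.Combinatorics.Enumerative.DoubleCounting

/-!
`18 * tau ≤ 3 n + 4 m` for 5-uniform families.
-/

namespace Pool.Agent.Work.MP_d266e7_co

open Finset

variable {V : Type} [DecidableEq V]

def U5 (S : Finset (Finset V)) : Prop := ∀ e ∈ S, e.card = 5

def star (S : Finset (Finset V)) (v : V) : Finset (Finset V) := S.filter (fun e => v ∈ e)

theorem mem_star {S : Finset (Finset V)} {v : V} {e : Finset V} :
    e ∈ star S v ↔ e ∈ S ∧ v ∈ e := mem_filter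

omit [DecidableEq V] in
theorem U5.ne {S : Finset (Finset V)} (h : U5 S) : NE S := fun e he => by
  have : 0 < e.card := by rw [h e he]; norm_num
  exact card_pos.1 this

omit [DecidableEq V] in
theorem U5.mono {A B : Finset (Finset V)} (h : U5 B) (hA : A ⊆ B) : U5 A :=
  fun e he => h e (hA he)

theorem sum_deg {S : Finset (Finset V)} (h : U5 S) :
    ∑ v ∈ cov S, (star S v).card = 5 * S.card := by
  have := sum_card_bipartiteAbove_eq_sum_card_bipartiteBelow (s := cov S) (t := S)
    (r := fun v e => v ∈ e)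
  have h2 : ∀ e ∈ S, ((cov S).bipartiteBelow (fun v e => v ∈ e) e).card = 5 := by
    intro e he
    rw [← h e he]
    congr 1
    ext v
    simp only [mem_bipartiteBelow]
    exact ⟨fun h => h.2, fun h => ⟨mem_cov.2 ⟨e, he, h⟩, h⟩⟩
  rw [sum_const_nat h2, mul_comm] at this
  exact this

/-- if all degrees are at most `a + b` and those outside `B` at most `a` -/
theorem deg_count {S : Finset (Finset V)} (h : U5 S) (a : ℕ) (B : Finset V)
    (h1 : ∀ v ∈ cov S, (star S v).card ≤ a + 1)
    (h2 : ∀ v ∈ cov S, v ∈ B → (star S v).card ≤ a) :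
    5 * S.card + (cov S ∩ B).card ≤ (a + 1) * (cov S).card := by
  rw [← sum_deg h]
  have : (cov S ∩ B).card = ∑ v ∈ cov S, if v ∈ B then 1 else 0 := by
    rw [← card_filter]; congr 1
  rw [this, ← sum_add_distrib, mul_comm, ← sum_const_nat (m := a + 1) (f := fun _ => a + 1)
    (fun _ _ => rfl)]
  apply sum_le_sum
  intro v hv
  by_cases hB : v ∈ B
  · have := h2 v hv hB
    simp [hB]; omega
  · have := h1 v hv
    simp [hB]; omega

theorem star_mono {A B : Finset (Finset V)} (h : A ⊆ B) (v : V) : star A v ⊆ star B v :=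
  filter_subset_filter _ h

theorem tau_star {S : Finset (Finset V)} (h : NE S) (v : V) : tau S ≤ tau (S \ star S v) + 1 :=
  tau_le_succ (h.mono sdiff_subset) v fun e he => by
    by_cases hv : v ∈ e
    · exact Or.inr hv
    · exact Or.inl (mem_sdiff.2 ⟨he, fun h => hv (mem_star.1 h).2⟩)

theorem cov_star {S : Finset (Finset V)} {v : V} (h : (star S v).Nonempty) :
    (cov (S \ star S v)).card + 1 ≤ (cov S).card := by
  obtain ⟨e, he⟩ := h
  obtain ⟨h1, h2⟩ := mem_star.1 he
  have : cov (S \ star S v) ⊂ cov S := by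
    refine ⟨cov_mono sdiff_subset, fun h => ?_⟩
    obtain ⟨f, hf, hv⟩ := mem_cov.1 (h (mem_cov.2 ⟨e, h1, h2⟩))
    obtain ⟨h3, h4⟩ := mem_sdiff.1 hf
    exact h4 (mem_star.2 ⟨h3, hv⟩)
  exact card_lt_card this

theorem card_star {S : Finset (Finset V)} (v : V) :
    (S \ star S v).card + (star S v).card = S.card :=
  card_sdiff_add_card_eq_card (filter_subset _ _)

theorem cov_union (A B : Finset (Finset V)) : cov (A ∪ B) = cov A ∪ cov B := by
  ext v
  simp only [mem_cov, mem_union]
  constructor
  · rintro ⟨e, h | h, hv⟩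
    · exact Or.inl ⟨e, h, hv⟩
    · exact Or.inr ⟨e, h, hv⟩
  · rintro (⟨e, h, hv⟩ | ⟨e, h, hv⟩)
    · exact ⟨e, Or.inl h, hv⟩
    · exact ⟨e, Or.inr h, hv⟩

theorem Sep.card_cov {A B : Finset (Finset V)} (h : Sep A B) :
    (cov (A ∪ B)).card = (cov A).card + (cov B).card := by
  rw [cov_union, card_union_of_disjoint h.disjoint_cov]

theorem not_conn {S : Finset (Finset V)} (h : ¬ Conn S) :
    ∃ W ⊆ S, W.Nonempty ∧ W ≠ S ∧ Sep W (S \ W) := by
  unfold Conn at h
  push Not at h
  obtain ⟨W, h1, h2, h3, h4⟩ := h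
  exact ⟨W, h1, h2, h3, fun e he f hf => h4 e he f (mem_sdiff.1 hf).1 (mem_sdiff.1 hf).2⟩

/-- a critical family with `2 tau ≥ |S| + 1` has a separated piece with equality -/
theorem exists_tight {S : Finset (Finset V)} (hS : NE S) (hc : Crit S)
    (h : S.card + 1 ≤ 2 * tau S) :
    ∃ L ⊆ S, Sep L (S \ L) ∧ 2 * tau L = L.card + 1 := by
  obtain ⟨L, ⟨h1, h2, h3⟩, hmin⟩ := exists_min'
    (fun L : Finset (Finset V) => L ⊆ S ∧ Sep L (S \ L) ∧ L.card + 1 ≤ 2 * tau L)
    (fun L => L.card) ⟨S, Subset.rfl, by simp [Sep], h⟩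
  refine ⟨L, h1, h2, le_antisymm (gallai (hS.mono h1) (crit_of_sep hS hc h1 h2) ?_) h3⟩
  by_contra hcon
  obtain ⟨W, w1, w2, w3, w4⟩ := not_conn hcon
  have hL := hS.mono h1
  have e1 : tau L = tau W + tau (L \ W) := by
    rw [← tau_union_sep (hL.mono w1) (hL.mono sdiff_subset) w4, union_sdiff_of_subset w1]
  have e2 := card_sdiff_add_card_eq_card w1
  have e3 : W.card < L.card := card_lt_card (Finset.ssubset_iff_subset_ne.2 ⟨w1, w3⟩)
  have e4 := card_pos.2 w2
  by_cases hW : W.card + 1 ≤ 2 * tau W
  · have := hmin W ⟨w1.trans h1, ?_, hW⟩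
    · omega
    · intro e he f hf
      obtain ⟨f1, f2⟩ := mem_sdiff.1 hf
      by_cases hfL : f ∈ L
      · exact w4 e he f (mem_sdiff.2 ⟨hfL, f2⟩)
      · exact h2 e (w1 he) f (mem_sdiff.2 ⟨f1, hfL⟩)
  · have := hmin (L \ W) ⟨sdiff_subset.trans h1, ?_, by omega⟩
    · omega
    · intro e he f hf
      obtain ⟨f1, f2⟩ := mem_sdiff.1 hf
      by_cases hfL : f ∈ L
      · have : f ∈ W := by
          by_contra h'
          exact f2 (mem_sdiff.2 ⟨hfL, h'⟩)
        exact w4.symm e he f this
      · exact h2 e (mem_sdiff.1 he).1 f (mem_sdiff.2 ⟨f1, hfL⟩)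

structure Ctx (K : Finset (Finset V)) : Prop where
  u5 : U5 K
  ih : ∀ S ⊆ K, S.card < K.card → 18 * tau S ≤ 3 * (cov S).card + 4 * S.card
  deg3 : ∀ v, (star K v).card ≤ 3
  crit : Crit K
  conn : Conn K
  tight : 2 * tau K = K.card + 1
  small : 3 * (cov K).card ≤ 5 * K.card + 8

structure Split (K : Finset (Finset V)) (t : V) (L1 L2 : Finset (Finset V)) : Prop where
  deg : (star K t).card = 3
  un : L1 ∪ L2 = K \ star K t
  sep : Sep L1 L2
  t1 : L1.card + 1 ≤ 2 * tau L1
  t2 : L2.card + 1 ≤ 2 * tau L2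

theorem Split.symm {K : Finset (Finset V)} {t : V} {L1 L2 : Finset (Finset V)}
    (h : Split K t L1 L2) : Split K t L2 L1 :=
  ⟨h.deg, by rw [union_comm]; exact h.un, h.sep.symm, h.t2, h.t1⟩

theorem Split.mem {K : Finset (Finset V)} {t : V} {L1 L2 : Finset (Finset V)}
    (h : Split K t L1 L2) {e : Finset V} : (e ∈ L1 ∨ e ∈ L2) ↔ (e ∈ K ∧ t ∉ e) := by
  rw [← mem_union, h.un, mem_sdiff, mem_star]
  tauto

theorem Split.sub {K : Finset (Finset V)} {t : V} {L1 L2 : Finset (Finset V)}
    (h : Split K t L1 L2) : L1 ⊆ K := fun _ he => (h.mem.1 (Or.inl he)).1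

theorem Split.ne {K : Finset (Finset V)} {t : V} {L1 L2 : Finset (Finset V)}
    (h : Split K t L1 L2) : L1.Nonempty := by
  rcases L1.eq_empty_or_nonempty with h1 | h1
  · have := h.t1
    rw [h1, tau_empty] at this
    omega
  · exact h1

namespace Ctx
variable {K : Finset (Finset V)} (C : Ctx K)
include C

theorem rem_tau {t : V} (ht : (star K t).card = 3) : tau (K \ star K t) + 1 = tau K := by
  apply le_antisymm _ (tau_star C.u5.ne t)
  obtain ⟨a, ha⟩ := card_pos.1 (show 0 < (star K t).card by omega)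
  have h1 := C.crit a (mem_star.1 ha).1
  have h2 : tau (K \ star K t) ≤ tau (K.erase a) :=
    tau_mono (C.u5.ne.mono (erase_subset _ _)) fun e he =>
      mem_erase.2 ⟨fun h => (mem_sdiff.1 he).2 (h ▸ ha), (mem_sdiff.1 he).1⟩
  omega

theorem rem_crit {t : V} (ht : (star K t).card = 3) : Crit (K \ star K t) := by
  intro y hy
  by_contra hcon
  have h1 := C.rem_tau ht
  have h2 := card_star (S := K) t
  have h3 := card_erase_add_one hy
  have h4 := C.ih ((K \ star K t).erase y) ((erase_subset _ _).trans sdiff_subset) (by omega)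
  have h5 := cov_star (card_pos.1 (show 0 < (star K t).card by omega))
  have h6 := card_le_card (cov_mono (erase_subset y (K \ star K t)))
  have h7 := C.tight
  have h8 := C.small
  omega

theorem exists_split {t : V} (ht : (star K t).card = 3) : ∃ L1 L2, Split K t L1 L2 := by
  have h1 := C.rem_tau ht
  have h2 := card_star (S := K) t
  have h7 := C.tight
  have hN : NE (K \ star K t) := C.u5.ne.mono sdiff_subset
  obtain ⟨L, l1, l2, l3⟩ := exists_tight hN (C.rem_crit ht) (by omega)
  have e1 : tau (K \ star K t) = tau L + tau ((K \ star K t) \ L) := by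
    rw [← tau_union_sep (hN.mono l1) (hN.mono sdiff_subset) l2, union_sdiff_of_subset l1]
  have e2 := card_sdiff_add_card_eq_card l1
  exact ⟨L, _, ht, union_sdiff_of_subset l1, l2, by omega, by omega⟩

/-- no critical piece hangs on a single member -/
theorem cut {P : Finset (Finset V)} (hP : P ⊆ K) (hne : P.Nonempty) (hPK : P ≠ K) (hc : Crit P)
    (h : ∀ e ∈ P, ∀ f ∈ K, f ∉ P → Adj e f → ∀ e' ∈ P, ∀ f' ∈ K, f' ∉ P → Adj e' f' → f' = f) :
    False := by
  obtain ⟨y, hy, a, ha, haP, v, hvy, hva⟩ := C.conn P hP hne hPK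
  have hN := C.u5.ne
  have hs : Sep P (K.erase a \ P) := by
    intro e he f hf hadj
    obtain ⟨f1, f2⟩ := mem_sdiff.1 hf
    obtain ⟨f3, f4⟩ := mem_erase.1 f1
    exact f3 (h y hy a ha haP ⟨v, hvy, hva⟩ e he f f4 f2 hadj)
  have hPa : P ⊆ K.erase a := fun e he => mem_erase.2 ⟨fun h => haP (h ▸ he), hP he⟩
  have hNa : NE (K.erase a) := hN.mono (erase_subset _ _)
  have e1 : tau (K.erase a) = tau P + tau (K.erase a \ P) := by
    rw [← tau_union_sep (hN.mono hP) (hNa.mono sdiff_subset) hs, union_sdiff_of_subset hPa]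
  have e2 := tau_union_le (A := P.erase y) (B := K.erase a \ P)
    (hN.mono ((erase_subset _ _).trans hP)) (hNa.mono sdiff_subset)
  have e3 : tau K ≤ tau (P.erase y ∪ K.erase a \ P) + 1 := by
    refine tau_le_succ (hN.mono ?_) v fun e he => ?_
    · exact union_subset ((erase_subset _ _).trans hP) (sdiff_subset.trans (erase_subset _ _))
    · by_cases h1 : e = y
      · exact Or.inr (h1 ▸ hvy)
      · by_cases h2 : e = a
        · exact Or.inr (h2 ▸ hva)
        · left
          by_cases h3 : e ∈ P
          · exact mem_union_left _ (mem_erase.2 ⟨h1, h3⟩)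
          · exact mem_union_right _ (mem_sdiff.2 ⟨mem_erase.2 ⟨h2, he⟩, h3⟩)
  have e4 := hc y hy
  have e5 := C.crit a ha
  omega

theorem split_crit {t : V} {L1 L2 P : Finset (Finset V)} (h : Split K t L1 L2) (hP : P ⊆ L2)
    (hs : Sep P (L2 \ P)) : Crit P := by
  refine crit_of_sep (C.u5.ne.mono sdiff_subset) (C.rem_crit h.deg) ?_ ?_
  · rw [← h.un]; exact hP.trans subset_union_right
  · intro e he f hf
    obtain ⟨f1, f2⟩ := mem_sdiff.1 hf
    rw [← h.un] at f1
    rcases mem_union.1 f1 with f1 | f1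
    · exact h.sep.symm e (hP he) f f1
    · exact hs e he f (mem_sdiff.2 ⟨f1, f2⟩)

theorem split_card {t : V} {L1 L2 : Finset (Finset V)} (h : Split K t L1 L2) :
    L1.card + L2.card + 3 = K.card := by
  have h1 := card_union_of_disjoint (h.sep.disjoint (C.u5.ne.mono h.sub))
  have h2 := card_star (S := K) t
  rw [h.un] at h1
  have := h.deg
  omega

theorem split_e {t : V} {L1 L2 : Finset (Finset V)} (h : Split K t L1 L2) :
    5 * L2.card + 9 ≤ 3 * (cov L2).card := by
  have h1 := C.split_card h
  have h2 := C.ih L2 h.symm.sub (by omega)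
  have h3 := h.t2
  omega

theorem pendant {t : V} {x : Finset V} {L : Finset (Finset V)} (h : Split K t {x} L)
    {v : V} (hv : v ∈ x) : (star K v).card ≤ 2 := by
  by_contra hcon
  have hN := C.u5.ne
  have hx : x ∈ K ∧ t ∉ x := h.mem.1 (Or.inl (mem_singleton_self _))
  have hLK : L ⊆ K := h.symm.sub
  have hLc : Crit L := C.split_crit h Subset.rfl (by simp [Sep])
  have hxL : ∀ y ∈ L, ¬ Adj x y := h.sep x (mem_singleton_self _)
  have hcases : ∀ e ∈ K, e = x ∨ e ∈ L ∨ t ∈ e := by
    intro e he
    by_cases ht : t ∈ e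
    · exact Or.inr (Or.inr ht)
    · rcases h.mem.2 ⟨he, ht⟩ with h1 | h1
      · exact Or.inl (mem_singleton.1 h1)
      · exact Or.inr (Or.inl h1)
  have htau : tau L + 2 ≤ tau K := by
    have h1 := C.rem_tau h.deg
    rw [← h.un, tau_union_sep (hN.mono h.sub) (hN.mono hLK) h.sep] at h1
    have h2 := tau_pos (hN.mono h.sub) h.ne
    omega
  have key : ∀ f ∈ K, ∀ y ∈ L, Adj y f → ∀ w ∈ x, (∀ e ∈ K, t ∈ e → e ≠ f → w ∈ e) → False := by
    rintro f hf y hy ⟨z, hzy, hzf⟩ w hw hall
    have h1 : tau K ≤ tau (L.erase y) + 2 := by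
      refine tau_le_two (hN.mono ((erase_subset _ _).trans hLK)) w z fun e he => ?_
      rcases hcases e he with h1 | h1 | h1
      · exact Or.inr (Or.inl (h1 ▸ hw))
      · by_cases h2 : e = y
        · exact Or.inr (Or.inr (h2 ▸ hzy))
        · exact Or.inl (mem_erase.2 ⟨h2, h1⟩)
      · by_cases h2 : e = f
        · exact Or.inr (Or.inr (h2 ▸ hzf))
        · exact Or.inr (Or.inl (hall e he h1 h2))
    have h2 := hLc y hy
    omega
  -- the members through `v` other than `x` pass through `t`
  have hsub : (star K v).erase x ⊆ star K t := by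
    intro e he
    obtain ⟨e1, e2⟩ := mem_erase.1 he
    obtain ⟨e3, e4⟩ := mem_star.1 e2
    rcases hcases e e3 with h1 | h1 | h1
    · exact absurd h1 e1
    · exact absurd ⟨v, hv, e4⟩ (hxL e h1)
    · exact mem_star.2 ⟨e3, h1⟩
  have hc2 : ((star K v).erase x).card = 2 := by
    have := card_erase_add_one (mem_star.2 ⟨hx.1, hv⟩ : x ∈ star K v)
    have := C.deg3 v
    omega
  have hc1 : (star K t \ (star K v).erase x).card = 1 := by
    have := card_sdiff_add_card_eq_card hsub
    have := h.deg
    omega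
  obtain ⟨a, b, hab, hab2⟩ := card_eq_two.1 hc2
  obtain ⟨c, hc⟩ := card_eq_one.1 hc1
  have hcm : c ∈ star K t \ (star K v).erase x := hc ▸ mem_singleton_self c
  have ham : a ∈ (star K v).erase x := hab2 ▸ mem_insert_self _ _
  have hbm : b ∈ (star K v).erase x := hab2 ▸ mem_insert_of_mem (mem_singleton_self _)
  obtain ⟨hcK, hct⟩ := mem_star.1 (mem_sdiff.1 hcm).1
  obtain ⟨haK, hat⟩ := mem_star.1 (hsub ham)
  obtain ⟨hbK, hbt⟩ := mem_star.1 (hsub hbm)
  have hav : v ∈ a := (mem_star.1 (mem_erase.1 ham).2).2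
  have hbv : v ∈ b := (mem_star.1 (mem_erase.1 hbm).2).2
  have hT : ∀ e ∈ K, t ∈ e → e = a ∨ e = b ∨ e = c := by
    intro e he ht
    by_cases h1 : e ∈ (star K v).erase x
    · rw [hab2] at h1
      rcases mem_insert.1 h1 with h1 | h1
      · exact Or.inl h1
      · exact Or.inr (Or.inl (mem_singleton.1 h1))
    · have : e ∈ star K t \ (star K v).erase x := mem_sdiff.2 ⟨mem_star.2 ⟨he, ht⟩, h1⟩
      rw [hc] at this
      exact Or.inr (Or.inr (mem_singleton.1 this))
  have hcL : ∀ y ∈ L, ¬ Adj y c := fun y hy hadj => key c hcK y hy hadj v hv fun e he ht hec => by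
    rcases hT e he ht with h1 | h1 | h1
    · exact h1 ▸ hav
    · exact h1 ▸ hbv
    · exact absurd h1 hec
  have hLne : L ≠ K := fun h' => by
    have : x ∈ L := h' ▸ hx.1
    exact hxL x this ⟨v, hv, hv⟩
  have hout : ∀ e ∈ L, ∀ f ∈ K, f ∉ L → Adj e f → f = a ∨ f = b := by
    intro e he f hf hfL hadj
    rcases hcases f hf with h1 | h1 | h1
    · exact absurd (h1 ▸ hadj.symm) (hxL e he)
    · exact absurd h1 hfL
    · rcases hT f hf h1 with h2 | h2 | h2
      · exact Or.inl h2
      · exact Or.inr h2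
      · exact absurd (h2 ▸ hadj) (hcL e he)
  have haL : ∃ y ∈ L, Adj y a := by
    by_contra hno
    push Not at hno
    refine C.cut hLK h.symm.ne hLne hLc fun e he f hf hfL hadj e' he' f' hf' hfL' hadj' => ?_
    rcases hout e he f hf hfL hadj with h1 | h1
    · exact absurd (h1 ▸ hadj) (hno e he)
    · rcases hout e' he' f' hf' hfL' hadj' with h2 | h2
      · exact absurd (h2 ▸ hadj') (hno e' he')
      · rw [h1, h2]
  have hbL : ∃ y ∈ L, Adj y b := by
    by_contra hno
    push Not at hno
    refine C.cut hLK h.symm.ne hLne hLc fun e he f hf hfL hadj e' he' f' hf' hfL' hadj' => ?_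
    rcases hout e he f hf hfL hadj with h1 | h1
    · rcases hout e' he' f' hf' hfL' hadj' with h2 | h2
      · rw [h1, h2]
      · exact absurd (h2 ▸ hadj') (hno e' he')
    · exact absurd (h1 ▸ hadj) (hno e he)
  have hcard := C.split_card h
  rw [card_singleton] at hcard
  have he := C.split_e h
  have hsm := C.small
  -- first count
  have hxc : 4 ≤ (x ∩ c).card := by
    have d1 : Disjoint (cov L) (x ∪ c) := by
      rw [disjoint_left]
      intro w hw hw2
      obtain ⟨y, hy, hwy⟩ := mem_cov.1 hw
      rcases mem_union.1 hw2 with h1 | h1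
      · exact hxL y hy ⟨w, h1, hwy⟩
      · exact hcL y hy ⟨w, hwy, h1⟩
    have d2 : cov L ∪ (x ∪ c) ⊆ cov K := union_subset (cov_mono hLK) (union_subset
      (fun w hw => mem_cov.2 ⟨x, hx.1, hw⟩) (fun w hw => mem_cov.2 ⟨c, hcK, hw⟩))
    have d3 := card_le_card d2
    rw [card_union_of_disjoint d1] at d3
    have d4 := card_union_add_card_inter x c
    have := C.u5 x hx.1
    have := C.u5 c hcK
    omega
  have hxcne : x ≠ c := fun h' => hx.2 (h' ▸ hct)
  set Y := (K.erase x).erase c with hY
  have hYK : Y ⊆ K := (erase_subset _ _).trans (erase_subset _ _)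
  have hYc : Y.card + 2 = K.card := by
    have h1 := card_erase_add_one hx.1
    have h2 := card_erase_add_one (mem_erase.2 ⟨hxcne.symm, hcK⟩ : c ∈ K.erase x)
    rw [hY]
    omega
  obtain ⟨w0, hw0⟩ := card_pos.1 (show 0 < (x ∩ c).card by omega)
  have hYt : tau K ≤ tau Y + 1 := by
    refine tau_le_succ (hN.mono hYK) w0 fun e he => ?_
    by_cases h1 : e = x
    · exact Or.inr (h1 ▸ (mem_inter.1 hw0).1)
    · by_cases h2 : e = c
      · exact Or.inr (h2 ▸ (mem_inter.1 hw0).2)
      · exact Or.inl (mem_erase.2 ⟨h2, mem_erase.2 ⟨h1, he⟩⟩)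
  have hYi := C.ih Y hYK (by omega)
  have d1 : Disjoint (cov Y) (x ∩ c) := by
    rw [disjoint_left]
    intro w hw hw2
    obtain ⟨hwx, hwc⟩ := mem_inter.1 hw2
    obtain ⟨y, hy, hwy⟩ := mem_cov.1 hw
    obtain ⟨y1, y2⟩ := mem_erase.1 hy
    obtain ⟨y3, y4⟩ := mem_erase.1 y2
    rcases hcases y y4 with h1 | h1 | h1
    · exact y3 h1
    · exact hxL y h1 ⟨w, hwx, hwy⟩
    · rcases hT y y4 h1 with h2 | h2 | h2
      · obtain ⟨y', hy', hadj⟩ := hbL
        refine key b hbK y' hy' hadj w hwx fun e he ht hne => ?_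
        rcases hT e he ht with h3 | h3 | h3
        · exact h3 ▸ h2 ▸ hwy
        · exact absurd h3 hne
        · exact h3 ▸ hwc
      · obtain ⟨y', hy', hadj⟩ := haL
        refine key a haK y' hy' hadj w hwx fun e he ht hne => ?_
        rcases hT e he ht with h3 | h3 | h3
        · exact absurd h3 hne
        · exact h3 ▸ h2 ▸ hwy
        · exact h3 ▸ hwc
      · exact y1 h2
  have d2 : cov Y ∪ (x ∩ c) ⊆ cov K := union_subset (cov_mono hYK)
    (fun w hw => mem_cov.2 ⟨x, hx.1, (mem_inter.1 hw).1⟩)
  have d3 := card_le_card d2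
  rw [card_union_of_disjoint d1] at d3
  have := C.tight
  omega

theorem side (n : ℕ) : ∀ (t : V) (L1 L2 : Finset (Finset V)), L1.card < n → Split K t L1 L2 →
    5 ≤ ((cov L1).filter (fun v => (star K v).card ≤ 2)).card := by
  induction n with
  | zero => intro t L1 L2 h; omega
  | succ n ih =>
    intro t L1 L2 hn h
    have hN := C.u5.ne
    by_cases hA : ∃ t', (star K t').card = 3 ∧ 2 ≤ (star L1 t').card
    · obtain ⟨t', ht', h2⟩ := hA
      obtain ⟨p, hp, q, hq, hpq⟩ := one_lt_card.1 (show 1 < (star L1 t').card by omega)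
      obtain ⟨hp1, hp2⟩ := mem_star.1 hp
      obtain ⟨hq1, hq2⟩ := mem_star.1 hq
      have hex : ∃ M1 M2, Split K t' M1 M2 ∧ ∀ e ∈ M1, t ∉ e := by
        obtain ⟨M1, M2, hM⟩ := C.exists_split ht'
        by_cases hh : ∀ e ∈ M1, t ∉ e
        · exact ⟨M1, M2, hM, hh⟩
        · push Not at hh
          obtain ⟨e, he, het⟩ := hh
          exact ⟨M2, M1, hM.symm, fun f hf hft => hM.sep e he f hf ⟨t, het, hft⟩⟩
      obtain ⟨M1, M2, hM, hMt⟩ := hex
      have hP : M1 ∩ L2 = ∅ := by
        by_contra hne
        have hne := nonempty_iff_ne_empty.2 hne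
        have hout : ∀ e ∈ M1 ∩ L2, ∀ f ∈ K, f ∉ M1 ∩ L2 → Adj e f → t ∈ f ∧ t' ∈ f := by
          intro e he f hf hfP hadj
          obtain ⟨e1, e2⟩ := mem_inter.1 he
          have c1 : t ∈ f ∨ f ∈ L2 := by
            by_cases hh : t ∈ f
            · exact Or.inl hh
            · rcases h.mem.2 ⟨hf, hh⟩ with h1 | h1
              · exact absurd hadj (h.sep.symm e e2 f h1)
              · exact Or.inr h1
          have c2 : t' ∈ f ∨ f ∈ M1 := by
            by_cases hh : t' ∈ f
            · exact Or.inl hh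
            · rcases hM.mem.2 ⟨hf, hh⟩ with h1 | h1
              · exact Or.inr h1
              · exact absurd hadj (hM.sep e e1 f h1)
          rcases c1 with c1 | c1 <;> rcases c2 with c2 | c2
          · exact ⟨c1, c2⟩
          · exact absurd c1 (hMt f c2)
          · exact absurd ⟨t', hp2, c2⟩ (h.sep p hp1 f c1)
          · exact absurd (mem_inter.2 ⟨c2, c1⟩) hfP
        refine C.cut (inter_subset_right.trans h.symm.sub) hne ?_
          (C.split_crit h inter_subset_right ?_) ?_
        · intro h'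
          have : p ∈ M1 ∩ L2 := h' ▸ h.sub hp1
          exact h.sep p hp1 p (mem_inter.1 this).2 ⟨t', hp2, hp2⟩
        · intro e he f hf hadj
          obtain ⟨f1, f2⟩ := mem_sdiff.1 hf
          exact (h.mem.1 (Or.inr f1)).2 (hout e he f (h.symm.sub f1) f2 hadj).1
        · intro e he f hf hfP hadj e' he' f' hf' hfP' hadj'
          obtain ⟨a1, a2⟩ := hout e he f hf hfP hadj
          obtain ⟨b1, b2⟩ := hout e' he' f' hf' hfP' hadj'
          by_contra hff
          have hpt := (h.mem.1 (Or.inl hp1)).2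
          have hqt := (h.mem.1 (Or.inl hq1)).2
          have : ({p, q, f, f'} : Finset (Finset V)) ⊆ star K t' := by
            intro g hg
            simp only [mem_insert, mem_singleton] at hg
            rcases hg with rfl | rfl | rfl | rfl
            · exact mem_star.2 ⟨h.sub hp1, hp2⟩
            · exact mem_star.2 ⟨h.sub hq1, hq2⟩
            · exact mem_star.2 ⟨hf, a2⟩
            · exact mem_star.2 ⟨hf', b2⟩
          have h4 := card_le_card this
          have n1 : p ≠ f := fun h' => hpt (h' ▸ a1)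
          have n2 : p ≠ f' := fun h' => hpt (h' ▸ b1)
          have n3 : q ≠ f := fun h' => hqt (h' ▸ a1)
          have n4 : q ≠ f' := fun h' => hqt (h' ▸ b1)
          rw [card_insert_of_notMem (by simp [hpq, n1, n2]),
            card_insert_of_notMem (by simp [n3, n4]), card_pair (Ne.symm hff)] at h4
          omega
      have hsub : M1 ⊆ L1 := by
        intro e he
        rcases h.mem.2 ⟨hM.sub he, hMt e he⟩ with h1 | h1
        · exact h1
        · have : e ∈ M1 ∩ L2 := mem_inter.2 ⟨he, h1⟩
          rw [hP] at this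
          simp at this
      have hlt : M1.card < L1.card :=
        card_lt_card ⟨hsub, fun h' => (hM.mem.1 (Or.inl (h' hp1))).2 hp2⟩
      exact (ih t' M1 M2 (by omega) hM).trans
        (card_le_card (filter_subset_filter _ (cov_mono hsub)))
    · push Not at hA
      by_contra hcon
      set low := (cov L1).filter (fun v => (star K v).card ≤ 2) with hlow
      have hd2 : ∀ v, (star L1 v).card ≤ 2 := by
        intro v
        have h1 := card_le_card (star_mono h.sub v)
        have h2 := C.deg3 v
        by_cases h3 : (star K v).card = 3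
        · have := hA v h3; omega
        · omega
      have h1 := deg_count (C.u5.mono h.sub) 1 (cov L1 \ low) (fun v _ => hd2 v) (by
        intro v hv hB
        have h2 : ¬ (star K v).card ≤ 2 := fun h' => (mem_sdiff.1 hB).2 (mem_filter.2 ⟨hv, h'⟩)
        have := hA v (by have := C.deg3 v; omega)
        omega)
      rw [inter_eq_right.2 sdiff_subset] at h1
      have h2 := card_sdiff_add_card_eq_card (filter_subset (fun v => (star K v).card ≤ 2) (cov L1))
      have h3 := C.split_card h
      have h4 := C.split_e h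
      have h5 := cov_star (card_pos.1 (show 0 < (star K t).card by have := h.deg; omega))
      rw [← h.un, h.sep.card_cov] at h5
      have h6 := C.small
      have h7 := card_pos.2 h.ne
      rw [← hlow] at h2
      have h8 : L1.card = 1 ∨ L1.card = 2 := by omega
      rcases h8 with h8 | h8
      · obtain ⟨x, rfl⟩ := card_eq_one.1 h8
        have : x ⊆ low := fun v hv =>
          mem_filter.2 ⟨mem_cov.2 ⟨x, mem_singleton_self _, hv⟩, C.pendant h hv⟩
        have h9 := card_le_card this
        have := C.u5 x (h.sub (mem_singleton_self _))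
        omega
      · have h9 : ∃ v, 2 ≤ (star L1 v).card := by
          by_contra hno
          push Not at hno
          have := deg_count (C.u5.mono h.sub) 0 ∅ (fun v _ => by have := hno v; omega)
            (fun v _ hB => by simp at hB)
          omega
        obtain ⟨v, hv⟩ := h9
        have : star L1 v = L1 := eq_of_subset_of_card_le (filter_subset _ _) (by omega)
        have h10 : tau L1 ≤ 1 := tau_le_one v fun e he => (mem_star.1 (this.symm ▸ he)).2
        have := h.t1
        omega

theorem false_of : False := by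
  have h6 := C.small
  have h7 := C.tight
  by_cases hA : ∃ t, (star K t).card = 3
  · obtain ⟨t, ht⟩ := hA
    obtain ⟨L1, L2, h⟩ := C.exists_split ht
    have h1 := C.side _ t L1 L2 (Nat.lt_succ_self _) h
    have h2 := C.side _ t L2 L1 (Nat.lt_succ_self _) h.symm
    set low := (cov K).filter (fun v => (star K v).card ≤ 2) with hlow
    have h3 := deg_count C.u5 2 low (fun v _ => C.deg3 v) (fun v _ hv => (mem_filter.1 hv).2)
    rw [inter_eq_right.2 (filter_subset _ _), ← hlow] at h3
    have d1 : Disjoint ((cov L1).filter (fun v => (star K v).card ≤ 2))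
        ((cov L2).filter (fun v => (star K v).card ≤ 2)) :=
      h.sep.disjoint_cov.mono (filter_subset _ _) (filter_subset _ _)
    have d2 := card_le_card (union_subset
      (filter_subset_filter (fun v => (star K v).card ≤ 2) (cov_mono h.sub))
      (filter_subset_filter (fun v => (star K v).card ≤ 2) (cov_mono h.symm.sub)))
    rw [card_union_of_disjoint d1, ← hlow] at d2
    omega
  · push Not at hA
    have h3 := deg_count C.u5 1 ∅ (fun v _ => by have := C.deg3 v; have := hA v; omega)
      (fun v _ hB => by simp at hB)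
    by_cases h1 : K.card = 1
    · obtain ⟨x, rfl⟩ := card_eq_one.1 h1
      have : x ⊆ cov {x} := fun v hv => mem_cov.2 ⟨x, mem_singleton_self _, hv⟩
      have h9 := card_le_card this
      have := C.u5 x (mem_singleton_self _)
      omega
    · omega

end Ctx

theorem three_four_aux (n : ℕ) : ∀ K : Finset (Finset V), K.card < n → U5 K →
    18 * tau K ≤ 3 * (cov K).card + 4 * K.card := by
  induction n with
  | zero => intro K h; omega
  | succ n ih =>
    intro K hn hK
    have IH : ∀ S ⊆ K, S.card < K.card → 18 * tau S ≤ 3 * (cov S).card + 4 * S.card :=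
      fun S h1 h2 => ih S (by omega) (hK.mono h1)
    by_contra hcon
    have hN := hK.ne
    have deg3 : ∀ v, (star K v).card ≤ 3 := by
      intro v
      by_contra h
      have h1 := tau_star hN v
      have h2 := card_star (S := K) v
      have h3 := cov_star (card_pos.1 (show 0 < (star K v).card by omega))
      have h4 := IH (K \ star K v) sdiff_subset (by omega)
      omega
    have crit : Crit K := by
      intro e he
      have h1 := card_erase_add_one he
      have h2 := IH (K.erase e) (erase_subset _ _) (by omega)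
      have h3 := card_le_card (cov_mono (erase_subset e K))
      omega
    have conn : Conn K := by
      by_contra h
      obtain ⟨W, w1, w2, w3, w4⟩ := not_conn h
      have e1 := tau_union_le (hN.mono w1) (hN.mono (sdiff_subset (s := K) (t := W)))
      have e5 := w4.card_cov
      rw [union_sdiff_of_subset w1] at e1 e5
      have e2 := card_sdiff_add_card_eq_card w1
      have e3 : W.card < K.card := card_lt_card (Finset.ssubset_iff_subset_ne.2 ⟨w1, w3⟩)
      have e4 := card_pos.2 w2
      have i1 := IH W w1 e3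
      have i2 := IH (K \ W) sdiff_subset (by omega)
      omega
    have h1 := gallai hN crit conn
    have h3 := deg_count hK 2 ∅ (fun v _ => deg3 v) (fun v _ hB => by simp at hB)
    exact Ctx.false_of ⟨hK, IH, deg3, crit, conn, by omega, by omega⟩

theorem three_four {K : Finset (Finset V)} (hK : U5 K) :
    18 * tau K ≤ 3 * (cov K).card + 4 * K.card :=
  three_four_aux _ K (Nat.lt_succ_self _) hK

end Pool.Agent.Work.MP_d266e7_co
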